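import Mathlib

/-!
Nonnegativity of a bivariate integer polynomial on a box, by Kronecker substitution:
the homogenised polynomial in the two barycentric coordinates is evaluated at one pair of
large integers, and the digits of the value are its coefficients.
-/

namespace Pool.EK71

/-- `(sum of a_j B^j C^(len-1-j), C^len)` -/
def hrow (B C : ℤ) : List ℤ → ℤ × ℤ
  | [] => (0, 1)
  | a :: l => match hrow B C l with
    | (v, w) => (Int.add (Int.mul a w) (Int.mul B v), Int.mul C w)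

/-- `sum of p_ij A^i B^j C^(N-i-j)` for a triangular array -/
def hpol (A B C : ℤ) : List (List ℤ) → ℤ
  | [] => 0
  | r :: P => Int.add (hrow B C r).1 (Int.mul A (hpol A B C P))

/-- the same sums of absolute values -/
def nrow (B C : ℕ) : List ℤ → ℕ × ℕ
  | [] => (0, 1)
  | a :: l => match nrow B C l with
    | (v, w) => (a.natAbs * w + B * v, C * w)

def npol (A B C : ℕ) : List (List ℤ) → ℕ
  | [] => 0
  | r :: P => (nrow B C r).1 + A * npol A B C P

/-- the same sums over the reals -/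
noncomputable def rrow (B C : ℝ) : List ℤ → ℝ × ℝ
  | [] => (0, 1)
  | a :: l => ((a : ℝ) * (rrow B C l).2 + B * (rrow B C l).1, C * (rrow B C l).2)

noncomputable def rpol (A B C : ℝ) : List (List ℤ) → ℝ
  | [] => 0
  | r :: P => (rrow B C r).1 + A * rpol A B C P

/-- row `i` of `P` has length `n - i` -/
def shp : ℕ → List (List ℤ) → Bool
  | 0, [] => true
  | 0, _ :: _ => false
  | _ + 1, [] => true
  | n + 1, r :: P => Nat.beq r.length (n + 1) && shp n P

/-- the lowest `n` digits of `T` in base `W` are `< H` -/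
def dig (W H : ℕ) : ℕ → ℕ → Bool
  | 0, _ => true
  | n + 1, T => Nat.ble (Nat.succ (T % W)) H && dig W H n (T / W)

/-- evaluation of `P` at `(x, y)` -/
noncomputable def ev1 (y : ℝ) : List ℤ → ℝ
  | [] => 0
  | a :: l => (a : ℝ) + y * ev1 y l

noncomputable def ev2 (x y : ℝ) : List (List ℤ) → ℝ
  | [] => 0
  | r :: P => ev1 y r + x * ev2 x y P

/-- `v` and `φ` are the values of one form of bidegree `(N, M)` with integer coefficients -/
def Rp (Z W : ℤ) (T0 T1 V0 V1 : ℝ) (N M c : ℕ) (v : ℤ) (φ : ℝ) : Prop :=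
  ∃ L : List (ℤ × ℕ × ℕ), (∀ t ∈ L, t.2.1 ≤ N ∧ t.2.2 ≤ M) ∧
    (L.map (fun t => t.1.natAbs)).sum ≤ c ∧
    v = (L.map (fun t => t.1 * Z ^ t.2.1 * W ^ t.2.2)).sum ∧
    φ = (L.map (fun t => (t.1 : ℝ) * (T1 ^ t.2.1 * T0 ^ (N - t.2.1)) *
      (V1 ^ t.2.2 * V0 ^ (M - t.2.2)))).sum

section Rp
variable {Z W : ℤ} {T0 T1 V0 V1 : ℝ}

lemma Rp.zero (N M : ℕ) : Rp Z W T0 T1 V0 V1 N M 0 0 0 :=
  ⟨[], by simp, by simp, by simp, by simp⟩

lemma Rp.const (a : ℤ) : Rp Z W T0 T1 V0 V1 0 0 a.natAbs a a :=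
  ⟨[(a, 0, 0)], by simp, by simp, by simp, by simp⟩

lemma Rp.mono {N M c c' : ℕ} {v : ℤ} {φ : ℝ} (h : Rp Z W T0 T1 V0 V1 N M c v φ) (hc : c ≤ c') :
    Rp Z W T0 T1 V0 V1 N M c' v φ := by
  obtain ⟨L, h1, h2, h3, h4⟩ := h
  exact ⟨L, h1, h2.trans hc, h3, h4⟩

lemma Rp.add {N M c c' : ℕ} {v v' : ℤ} {φ φ' : ℝ} (h : Rp Z W T0 T1 V0 V1 N M c v φ)
    (h' : Rp Z W T0 T1 V0 V1 N M c' v' φ') :
    Rp Z W T0 T1 V0 V1 N M (c + c') (v + v') (φ + φ') := by
  obtain ⟨L, h1, h2, h3, h4⟩ := h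
  obtain ⟨L', h1', h2', h3', h4'⟩ := h'
  refine ⟨L ++ L', ?_, ?_, ?_, ?_⟩
  · intro t ht
    rcases List.mem_append.1 ht with h | h
    · exact h1 t h
    · exact h1' t h
  · rw [List.map_append, List.sum_append]; omega
  · rw [List.map_append, List.sum_append, h3, h3']
  · rw [List.map_append, List.sum_append, h4, h4']

lemma Rp.smul {N M c : ℕ} {v : ℤ} {φ : ℝ} (a : ℤ) (h : Rp Z W T0 T1 V0 V1 N M c v φ) :
    Rp Z W T0 T1 V0 V1 N M (a.natAbs * c) (a * v) (a * φ) := by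
  obtain ⟨L, h1, h2, h3, h4⟩ := h
  refine ⟨L.map (fun t => (a * t.1, t.2)), ?_, ?_, ?_, ?_⟩
  · intro t ht
    obtain ⟨s, hs, rfl⟩ := List.mem_map.1 ht
    exact h1 s hs
  · rw [List.map_map]
    have : (L.map ((fun t : ℤ × ℕ × ℕ => t.1.natAbs) ∘ fun t => (a * t.1, t.2))).sum
        = a.natAbs * (L.map (fun t => t.1.natAbs)).sum := by
      rw [← List.sum_map_mul_left]
      congr 1
      refine List.map_congr_left (fun t _ => ?_)
      simp [Int.natAbs_mul]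
    rw [this]; exact Nat.mul_le_mul_left _ h2
  · rw [List.map_map, h3, ← List.sum_map_mul_left]
    congr 1
    refine List.map_congr_left (fun t _ => ?_)
    simp only [Function.comp]; ring
  · rw [List.map_map, h4, ← List.sum_map_mul_left]
    congr 1
    refine List.map_congr_left (fun t _ => ?_)
    simp only [Function.comp]; push_cast; ring

/-- multiplication by `T0` -/
lemma Rp.t0 {N M c : ℕ} {v : ℤ} {φ : ℝ} (h : Rp Z W T0 T1 V0 V1 N M c v φ) :
    Rp Z W T0 T1 V0 V1 (N + 1) M c v (T0 * φ) := by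
  obtain ⟨L, h1, h2, h3, h4⟩ := h
  refine ⟨L, fun t ht => ⟨(h1 t ht).1.trans (Nat.le_succ _), (h1 t ht).2⟩, h2, h3, ?_⟩
  rw [h4, ← List.sum_map_mul_left]
  congr 1
  refine List.map_congr_left (fun t ht => ?_)
  have e : N + 1 - t.2.1 = (N - t.2.1) + 1 := by have := (h1 t ht).1; omega
  rw [e, pow_succ]; ring

/-- multiplication by `T1` -/
lemma Rp.t1 {N M c : ℕ} {v : ℤ} {φ : ℝ} (h : Rp Z W T0 T1 V0 V1 N M c v φ) :
    Rp Z W T0 T1 V0 V1 (N + 1) M c (Z * v) (T1 * φ) := by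
  obtain ⟨L, h1, h2, h3, h4⟩ := h
  refine ⟨L.map (fun t => (t.1, t.2.1 + 1, t.2.2)), ?_, ?_, ?_, ?_⟩
  · intro t ht
    obtain ⟨s, hs, rfl⟩ := List.mem_map.1 ht
    exact ⟨Nat.succ_le_succ (h1 s hs).1, (h1 s hs).2⟩
  · rw [List.map_map]; exact h2
  · rw [List.map_map, h3, ← List.sum_map_mul_left]
    congr 1
    refine List.map_congr_left (fun t _ => ?_)
    simp only [Function.comp]; ring
  · rw [List.map_map, h4, ← List.sum_map_mul_left]
    congr 1
    refine List.map_congr_left (fun t ht => ?_)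
    have e : N + 1 - (t.2.1 + 1) = N - t.2.1 := by omega
    simp only [Function.comp, e]; ring

/-- multiplication by `V0` -/
lemma Rp.v0 {N M c : ℕ} {v : ℤ} {φ : ℝ} (h : Rp Z W T0 T1 V0 V1 N M c v φ) :
    Rp Z W T0 T1 V0 V1 N (M + 1) c v (V0 * φ) := by
  obtain ⟨L, h1, h2, h3, h4⟩ := h
  refine ⟨L, fun t ht => ⟨(h1 t ht).1, (h1 t ht).2.trans (Nat.le_succ _)⟩, h2, h3, ?_⟩
  rw [h4, ← List.sum_map_mul_left]
  congr 1
  refine List.map_congr_left (fun t ht => ?_)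
  have e : M + 1 - t.2.2 = (M - t.2.2) + 1 := by have := (h1 t ht).2; omega
  rw [e, pow_succ]; ring

/-- multiplication by `V1` -/
lemma Rp.v1 {N M c : ℕ} {v : ℤ} {φ : ℝ} (h : Rp Z W T0 T1 V0 V1 N M c v φ) :
    Rp Z W T0 T1 V0 V1 N (M + 1) c (W * v) (V1 * φ) := by
  obtain ⟨L, h1, h2, h3, h4⟩ := h
  refine ⟨L.map (fun t => (t.1, t.2.1, t.2.2 + 1)), ?_, ?_, ?_, ?_⟩
  · intro t ht
    obtain ⟨s, hs, rfl⟩ := List.mem_map.1 ht
    exact ⟨(h1 s hs).1, Nat.succ_le_succ (h1 s hs).2⟩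
  · rw [List.map_map]; exact h2
  · rw [List.map_map, h3, ← List.sum_map_mul_left]
    congr 1
    refine List.map_congr_left (fun t _ => ?_)
    simp only [Function.comp]; ring
  · rw [List.map_map, h4, ← List.sum_map_mul_left]
    congr 1
    refine List.map_congr_left (fun t ht => ?_)
    have e : M + 1 - (t.2.2 + 1) = M - t.2.2 := by omega
    simp only [Function.comp, e]; ring

/-- multiplication by `a T0 + b T1` -/
lemma Rp.tl {N M c : ℕ} {v : ℤ} {φ : ℝ} (a b : ℤ) (h : Rp Z W T0 T1 V0 V1 N M c v φ) :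
    Rp Z W T0 T1 V0 V1 (N + 1) M ((a.natAbs + b.natAbs) * c) ((a + b * Z) * v)
      ((a * T0 + b * T1) * φ) := by
  have h1 := (h.t0).smul a
  have h2 := (h.t1).smul b
  have h3 := h1.add h2
  have e1 : a.natAbs * c + b.natAbs * c = (a.natAbs + b.natAbs) * c := by ring
  have e2 : a * v + b * (Z * v) = (a + b * Z) * v := by ring
  have e3 : (a : ℝ) * (T0 * φ) + (b : ℝ) * (T1 * φ) = (a * T0 + b * T1) * φ := by ring
  rw [e1, e2, e3] at h3
  exact h3

/-- multiplication by `a V0 + b V1` -/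
lemma Rp.vl {N M c : ℕ} {v : ℤ} {φ : ℝ} (a b : ℤ) (h : Rp Z W T0 T1 V0 V1 N M c v φ) :
    Rp Z W T0 T1 V0 V1 N (M + 1) ((a.natAbs + b.natAbs) * c) ((a + b * W) * v)
      ((a * V0 + b * V1) * φ) := by
  have h1 := (h.v0).smul a
  have h2 := (h.v1).smul b
  have h3 := h1.add h2
  have e1 : a.natAbs * c + b.natAbs * c = (a.natAbs + b.natAbs) * c := by ring
  have e2 : a * v + b * (W * v) = (a + b * W) * v := by ring
  have e3 : (a : ℝ) * (V0 * φ) + (b : ℝ) * (V1 * φ) = (a * V0 + b * V1) * φ := by ring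
  rw [e1, e2, e3] at h3
  exact h3

/-- a bilinear form by which one may multiply -/
def Mk (Z W : ℤ) (T0 T1 V0 V1 : ℝ) (cB : ℕ) (B : ℤ) (Bφ : ℝ) : Prop :=
  ∀ N M c v φ, Rp Z W T0 T1 V0 V1 N M c v φ →
    Rp Z W T0 T1 V0 V1 (N + 1) (M + 1) (cB * c) (B * v) (Bφ * φ)

lemma Mk.of (a b c d : ℤ) : Mk Z W T0 T1 V0 V1 ((a.natAbs + b.natAbs) * (c.natAbs + d.natAbs))
    ((a + b * Z) * (c + d * W)) ((a * T0 + b * T1) * (c * V0 + d * V1)) := by
  intro N M k v φ h
  have h1 := (h.vl c d).tl a b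
  rw [← mul_assoc, ← mul_assoc, ← mul_assoc] at h1
  exact h1

lemma row_rp {cB cC : ℕ} {B C : ℤ} {Bφ Cφ : ℝ} (hB : Mk Z W T0 T1 V0 V1 cB B Bφ)
    (hC : Mk Z W T0 T1 V0 V1 cC C Cφ) (l : List ℤ) :
    Rp Z W T0 T1 V0 V1 l.length l.length (nrow cB cC l).2 (hrow B C l).2 (rrow Bφ Cφ l).2 ∧
    (∀ n, l.length = n + 1 →
      Rp Z W T0 T1 V0 V1 n n (nrow cB cC l).1 (hrow B C l).1 (rrow Bφ Cφ l).1) := by
  induction l with
  | nil =>
    refine ⟨?_, ?_⟩
    · simpa [nrow, hrow, rrow] using (Rp.const (Z := Z) (W := W) (T0 := T0) (T1 := T1)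
        (V0 := V0) (V1 := V1) 1)
    · intro n hn; simp at hn
  | cons a l ih =>
    obtain ⟨ih1, ih2⟩ := ih
    refine ⟨?_, ?_⟩
    · exact hC _ _ _ _ _ ih1
    · intro n hn
      have hn' : l.length = n := by simpa using hn
      have h1 := ih1.smul a
      rw [hn'] at h1
      rcases Nat.eq_zero_or_pos n with h0 | hpos
      · subst h0
        obtain rfl : l = [] := List.length_eq_zero_iff.1 hn'
        have := h1.add (Rp.zero (Z := Z) (W := W) (T0 := T0) (T1 := T1)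
          (V0 := V0) (V1 := V1) 0 0)
        simpa [nrow, hrow, rrow] using this
      · obtain ⟨m, rfl⟩ : ∃ m, n = m + 1 := ⟨n - 1, by omega⟩
        have h2 := hB _ _ _ _ _ (ih2 m hn')
        exact h1.add h2

lemma pol_rp {cA cB cC : ℕ} {A B C : ℤ} {Aφ Bφ Cφ : ℝ} (hA : Mk Z W T0 T1 V0 V1 cA A Aφ)
    (hB : Mk Z W T0 T1 V0 V1 cB B Bφ) (hC : Mk Z W T0 T1 V0 V1 cC C Cφ)
    (P : List (List ℤ)) (N : ℕ) (hs : shp (N + 1) P = true) :
    Rp Z W T0 T1 V0 V1 N N (npol cA cB cC P) (hpol A B C P) (rpol Aφ Bφ Cφ P) := by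
  induction P generalizing N with
  | nil => exact Rp.zero N N
  | cons r P ih =>
    simp only [shp, Bool.and_eq_true] at hs
    have hr : r.length = N + 1 := Nat.eq_of_beq_eq_true hs.1
    have h1 := (row_rp hB hC r).2 N hr
    rcases Nat.eq_zero_or_pos N with h0 | hpos
    · subst h0
      have hP : P = [] := by
        cases P with
        | nil => rfl
        | cons a b => have := hs.2; simp [shp] at this
      subst hP
      have := h1.add (Rp.zero (Z := Z) (W := W) (T0 := T0) (T1 := T1)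
          (V0 := V0) (V1 := V1) 0 0)
      simpa [npol, hpol, rpol] using this
    · obtain ⟨m, rfl⟩ : ∃ m, N = m + 1 := ⟨N - 1, by omega⟩
      have h2 := hA _ _ _ _ _ (ih m hs.2)
      exact h1.add h2

end Rp

end Pool.EK71
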