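import Pool.Agent.Helper71.EK.Lk

/-!
Project EK, E5: the certificate.
-/

set_option autoImplicit false
open Complex MeasureTheory Metric Set
open scoped Real ComplexConjugate

namespace Pool.Agent.Helper71.EK

open Pool.Agent.Helper52.EK Pool.Agent.Helper2.EK Pool.EK71

lemma pos1' (x y : ℝ) (hy : 0 ≤ y) :
    0 < N4 x y ∧ 0 ≤ m11 x y ∧ 0 ≤ m22 x y ∧ m12 x y ^ 2 ≤ m11 x y * m22 x y := by
  obtain ⟨h1, h2, h3, h4⟩ := good_D1 x y hy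
  have e1 : ev2 x y D1.P11 = 1600 * m11 x y := l_11 x y
  have e2 : ev2 x y D1.P22 = 1600 * m22 x y := l_22 x y
  have e3 : ev2 x y D1.P12 = 1600 * m12 x y := l_12 x y
  have e4 : ev2 x y D1.Q = 20 * N4 x y - 20 := l_N4 x y
  rw [e1] at h1
  rw [e2] at h2
  rw [e1, e2, e3] at h3
  rw [e4] at h4
  refine ⟨by linarith, by linarith, by linarith, by nlinarith⟩

lemma pos2' (x y : ℝ) (hy : 0 ≤ y) :
    0 < N2 x y ∧ 0 ≤ M11 x y ∧ 0 ≤ M22 x y ∧ M12 x y ^ 2 ≤ M11 x y * M22 x y := by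
  obtain ⟨h1, h2, h3, h4⟩ := good_D2 x y hy
  have e1 : ev2 x y D2.P11 = 1600 * M11 x y := L_11 x y
  have e2 : ev2 x y D2.P22 = 1600 * M22 x y := L_22 x y
  have e3 : ev2 x y D2.P12 = 1600 * M12 x y := L_12 x y
  have e4 : ev2 x y D2.Q = 20 * N2 x y - 20 := l_N2 x y
  rw [e1] at h1
  rw [e2] at h2
  rw [e1, e2, e3] at h3
  rw [e4] at h4
  refine ⟨by linarith, by linarith, by linarith, by nlinarith⟩

/-! symmetry `y → -y` -/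

lemma s_D (x y : ℝ) : Dp x (-y) = Dp x y := by unfold Dp; ring
lemma s_F (x y : ℝ) : Fp x (-y) = Fp x y := by unfold Fp; ring
lemma s_U (x y : ℝ) : NU x (-y) = NU x y := by unfold NU; rw [s_D]
lemma s_Ux (x y : ℝ) : NUx x (-y) = NUx x y := by unfold NUx; rw [s_D]
lemma s_Uy (x y : ℝ) : NUy x (-y) = -NUy x y := by unfold NUy; rw [s_D]; ring
lemma s_V (x y : ℝ) : NV x (-y) = -NV x y := by unfold NV; ring
lemma s_V2 (x y : ℝ) : NV2 x (-y) = NV2 x y := by unfold NV2; rw [s_D]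
lemma s_V2x (x y : ℝ) : NV2x x (-y) = NV2x x y := by unfold NV2x; rw [s_D]
lemma s_V2y (x y : ℝ) : NV2y x (-y) = -NV2y x y := by unfold NV2y; rw [s_D]; ring
lemma s_W (x y : ℝ) : NW x (-y) = NW x y := by unfold NW; rw [s_D]
lemma s_Wx (x y : ℝ) : NWx x (-y) = NWx x y := by unfold NWx; rw [s_D]
lemma s_Wy (x y : ℝ) : NWy x (-y) = -NWy x y := by unfold NWy; ring
lemma s_W2 (x y : ℝ) : NW2 x (-y) = -NW2 x y := by unfold NW2; rw [s_D]; ring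
lemma s_W2x (x y : ℝ) : NW2x x (-y) = -NW2x x y := by unfold NW2x; ring
lemma s_W2y (x y : ℝ) : NW2y x (-y) = NW2y x y := by unfold NW2y; rw [s_D]; ring

lemma s_N4 (x y : ℝ) : N4 x (-y) = N4 x y := by
  unfold N4 hh hx hy hLap NUxx NUyy
  rw [s_D, s_F, s_U, s_Ux, s_Uy]; ring

lemma s_a1 (x y : ℝ) : a1 x (-y) = a1 x y := by
  unfold a1 nr ni; rw [s_D, s_V, s_W, s_Wx, s_Wy]; ring
lemma s_a2 (x y : ℝ) : a2 x (-y) = -a2 x y := by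
  unfold a2 nr ni; rw [s_D, s_V, s_W, s_Wx, s_Wy]; ring
lemma s_b1 (x y : ℝ) : b1 x (-y) = -b1 x y := by
  unfold b1 nr ni; rw [s_D, s_V2, s_V2x, s_V2y, s_W2, s_W2x, s_W2y]; ring
lemma s_b2 (x y : ℝ) : b2 x (-y) = b2 x y := by
  unfold b2 nr ni; rw [s_D, s_V2, s_V2x, s_V2y, s_W2, s_W2x, s_W2y]; ring
lemma s_S (x y : ℝ) : Sg x (-y) = Sg x y := by unfold Sg; rw [s_D]
lemma s_Na (x y : ℝ) : Na x (-y) = Na x y := by unfold Na; rw [s_D, s_S, s_U, s_V2]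
lemma s_Ng (x y : ℝ) : Ng x (-y) = Ng x y := by unfold Ng; rw [s_D, s_S, s_U, s_V2]
lemma s_Nb (x y : ℝ) : Nb x (-y) = -Nb x y := by unfold Nb; rw [s_V]
lemma s_m11 (x y : ℝ) : m11 x (-y) = m11 x y := by
  unfold m11; rw [s_N4, s_Na, s_a1, s_a2]; ring
lemma s_m12 (x y : ℝ) : m12 x (-y) = -m12 x y := by
  unfold m12; rw [s_N4, s_Nb, s_a1, s_a2, s_b1, s_b2]; ring
lemma s_m22 (x y : ℝ) : m22 x (-y) = m22 x y := by
  unfold m22; rw [s_N4, s_Ng, s_b1, s_b2]; ring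
lemma s_N2 (x y : ℝ) : N2 x (-y) = N2 x y := by
  unfold N2; rw [s_N4, s_D, s_S, s_F]; ring
lemma s_Na2 (x y : ℝ) : Na2 x (-y) = Na2 x y := by unfold Na2; rw [s_D, s_S, s_U, s_V2, s_F]
lemma s_Ng2 (x y : ℝ) : Ng2 x (-y) = Ng2 x y := by unfold Ng2; rw [s_D, s_U, s_V2]
lemma s_Nb2 (x y : ℝ) : Nb2 x (-y) = -Nb2 x y := by unfold Nb2; rw [s_V, s_S]; ring
lemma s_A21 (x y : ℝ) : A21 x (-y) = A21 x y := by
  unfold A21; rw [s_a1, s_a2, s_D, s_S, s_F]; ring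
lemma s_A22 (x y : ℝ) : A22 x (-y) = -A22 x y := by
  unfold A22; rw [s_a1, s_a2, s_D, s_S]; ring
lemma s_B21 (x y : ℝ) : B21 x (-y) = -B21 x y := by
  unfold B21; rw [s_b1, s_b2, s_D, s_S]; ring
lemma s_B22 (x y : ℝ) : B22 x (-y) = B22 x y := by
  unfold B22; rw [s_b1, s_b2, s_D, s_S]; ring
lemma s_M11 (x y : ℝ) : M11 x (-y) = M11 x y := by
  unfold M11; rw [s_N2, s_Na2, s_A21, s_A22]; ring
lemma s_M12 (x y : ℝ) : M12 x (-y) = -M12 x y := by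
  unfold M12; rw [s_N2, s_Nb2, s_A21, s_A22, s_B21, s_B22]; ring
lemma s_M22 (x y : ℝ) : M22 x (-y) = M22 x y := by
  unfold M22; rw [s_N2, s_Ng2, s_B21, s_B22]; ring

lemma pos1 (x y : ℝ) :
    0 < N4 x y ∧ 0 ≤ m11 x y ∧ 0 ≤ m22 x y ∧ m12 x y ^ 2 ≤ m11 x y * m22 x y := by
  rcases le_total 0 y with h | h
  · exact pos1' x y h
  · have := pos1' x (-y) (by linarith)
    rwa [s_N4, s_m11, s_m22, s_m12, neg_sq] at this

lemma pos2 (x y : ℝ) :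
    0 < N2 x y ∧ 0 ≤ M11 x y ∧ 0 ≤ M22 x y ∧ M12 x y ^ 2 ≤ M11 x y * M22 x y := by
  rcases le_total 0 y with h | h
  · exact pos2' x y h
  · have := pos2' x (-y) (by linarith)
    rwa [s_N2, s_M11, s_M22, s_M12, neg_sq] at this

lemma main_ineq (X Y : ℂ) (hX : X ≠ 0) (s c : ℝ) (h : s ^ 2 + c ^ 2 = 1) :
    TG Gc X Y s c ≤ EE X.re X.im Y.re Y.im s c := by
  obtain ⟨p1, p2, p3, p4⟩ := pos1 X.re X.im
  obtain ⟨r1, r2, r3, r4⟩ := pos2 X.re X.im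
  have hS : 0 ≤ Fp X.re X.im * Sg X.re X.im / Dp X.re X.im ^ 2 := by
    have h1 := Dp_pos X.re X.im
    have h2 : 0 ≤ Fp X.re X.im := by unfold Fp; positivity
    have h3 : 0 ≤ Sg X.re X.im := by unfold Sg; positivity
    positivity
  have c1 := cond1 p1 p2 p3 p4 h Y.re Y.im
  refine TG_le h hS c1 ?_
  rw [norm_m_sub h, norm_m_sq h]
  have c2 := cond2 r1 r2 r3 r4 h (Y / X).re (Y / X).im
  have eY : Y = X * (Y / X) := by field_simp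
  have e1 : X.re * (Y / X).re - X.im * (Y / X).im = Y.re := by
    conv_rhs => rw [eY]
    rw [Complex.mul_re]
  have e2 : X.re * (Y / X).im + X.im * (Y / X).re = Y.im := by
    conv_rhs => rw [eY]
    rw [Complex.mul_im]
  rw [e1, e2] at c2
  exact c2

/-- E5: the certificate -/
theorem cert : ∃ U Ux Uy Lap V Vx Vy V2 V2x V2y W Wx Wy W2 W2x W2y : ℂ → ℝ, ∃ C : ℝ,
    C2f U Ux Uy Lap ∧ C1f V Vx Vy ∧ C1f V2 V2x V2y ∧ C1f W Wx Wy ∧ C1f W2 W2x W2y ∧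
    (∀ X, |U X| ≤ C * ‖X - 1‖ ^ 2) ∧ (∀ X, |W X| ≤ C * ‖X - 1‖ ^ 2) ∧
    (∀ X, |W2 X| ≤ C * ‖X - 1‖ ^ 2) ∧
    (∀ X Y : ℂ, X ≠ 0 → ∀ s c : ℝ, s ^ 2 + c ^ 2 = 1 →
      TG Gc X Y s c ≤ 179 / 20 * ‖X - 1‖ ^ 2
        + (s ^ 2 * Lap X * ‖Y‖ ^ 2 - 2 * (c ^ 2 - s ^ 2) * U X)
        + (s ^ 2 * (Wx X * Y.re + Wy X * Y.im) + 2 * s * c * (W2x X * Y.re + W2y X * Y.im))
        + (s ^ 2 * (-Vx X * Y.im + Vy X * Y.re) + 2 * s * c * V X)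
        + (2 * s * c * (-V2x X * Y.im + V2y X * Y.re) + 2 * (c ^ 2 - s ^ 2) * V2 X)) := by
  refine ⟨U, Ux, Uy, LapU, V, Vx, Vy, V2, V2x, V2y, W, Wx, Wy, W2, W2x, W2y, 30,
    c2_U, c1_V, c1_V2, c1_W, c1_W2, U_le, W_le, W2_le, ?_⟩
  intro X Y hX s c h
  refine (main_ineq X Y hX s c h).trans (le_of_eq ?_)
  have hY : ‖Y‖ ^ 2 = Y.re ^ 2 + Y.im ^ 2 := by
    rw [← Complex.normSq_eq_norm_sq, Complex.normSq_apply]; ring
  rw [hY, ← Fp_eq]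
  rfl

end Pool.Agent.Helper71.EK
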