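import Pool.Agent.Helper52.EK.Defs

/-!
Project EK, E5: the algebra between the 2x2 forms and the pointwise inequality.
-/

set_option autoImplicit false
open Complex MeasureTheory Metric Set
open scoped Real ComplexConjugate

namespace Pool.Agent.Helper71.EK

open Pool.Agent.Helper52.EK

/-- binary forms -/
lemma form2 {a b d : ℝ} (ha : 0 ≤ a) (hd : 0 ≤ d) (hb : b ^ 2 ≤ a * d) (s c : ℝ) :
    0 ≤ a * s ^ 2 + 2 * b * (s * c) + d * c ^ 2 := by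
  rcases ha.eq_or_lt with h0 | h0
  · have hb0 : b = 0 := by
      rw [← h0, zero_mul] at hb
      exact pow_eq_zero_iff (two_ne_zero) |>.1 (le_antisymm hb (sq_nonneg b))
    rw [← h0, hb0]
    have : 0 ≤ d * c ^ 2 := by positivity
    linarith
  · have h1 : a * (a * s ^ 2 + 2 * b * (s * c) + d * c ^ 2) =
        (a * s + b * c) ^ 2 + (a * d - b ^ 2) * c ^ 2 := by ring
    have h2 : 0 ≤ a * (a * s ^ 2 + 2 * b * (s * c) + d * c ^ 2) := by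
      rw [h1]
      have : 0 ≤ a * d - b ^ 2 := by linarith
      positivity
    exact nonneg_of_mul_nonneg_right h2 h0

/-- completing the square in `u = (u1, u2)` -/
lemma square {D N h g1 g2 f1 f2 : ℝ} (hD : 0 < D) (hN : 0 < N)
    (hg : g1 ^ 2 + g2 ^ 2 ≤ N * h) (u1 u2 : ℝ) :
    0 ≤ N / D ^ 4 * (u1 ^ 2 + u2 ^ 2)
      + 2 / D ^ 3 * ((f1 * g1 + f2 * g2) * u1 - (f1 * g2 - f2 * g1) * u2)
      + (f1 ^ 2 + f2 ^ 2) * h / D ^ 2 := by
  have key : D ^ 4 * N * (N / D ^ 4 * (u1 ^ 2 + u2 ^ 2)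
      + 2 / D ^ 3 * ((f1 * g1 + f2 * g2) * u1 - (f1 * g2 - f2 * g1) * u2)
      + (f1 ^ 2 + f2 ^ 2) * h / D ^ 2) =
      (N * u1 + D * (f1 * g1 + f2 * g2)) ^ 2 + (N * u2 - D * (f1 * g2 - f2 * g1)) ^ 2
      + D ^ 2 * (f1 ^ 2 + f2 ^ 2) * (N * h - (g1 ^ 2 + g2 ^ 2)) := by
    field_simp
    ring
  have hpos : 0 < D ^ 4 * N := by positivity
  refine nonneg_of_mul_nonneg_right ?_ hpos
  rw [key]
  have : 0 ≤ N * h - (g1 ^ 2 + g2 ^ 2) := by linarith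
  positivity

lemma e0_norm {s c : ℝ} (h : s ^ 2 + c ^ 2 = 1) : ‖e0 s c‖ = 1 := by
  have h1 : ‖(c : ℂ) - (s : ℂ) * I‖ ^ 2 = 1 := by
    rw [← Complex.normSq_eq_norm_sq, Complex.normSq_apply]
    simp
    nlinarith
  rw [e0, norm_neg, norm_pow, h1]

/-- the value of `TG Gc` -/
lemma TG_mul {X Y : ℂ} {s c : ℝ} (h : s ^ 2 + c ^ 2 = 1) :
    TG Gc X Y s c * max 1 (‖mX X Y s c‖ ^ 2) = ‖mX X Y s c - e0 s c‖ ^ 2 := by
  have he := e0_norm h
  rw [TG]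
  generalize mX X Y s c = m
  rcases le_or_gt (‖m‖ ^ 2) 1 with h1 | h1
  · rw [Gc, max_eq_left h1]; simp
  · have hm : 0 < ‖m‖ ^ 2 := by linarith
    rw [Gc, max_eq_right h1.le]
    show ‖m / ((‖m‖ ^ 2 : ℝ) : ℂ) - e0 s c‖ ^ 2 * ‖m‖ ^ 2 = ‖m - e0 s c‖ ^ 2
    rw [← Complex.normSq_eq_norm_sq (m / _ - _), ← Complex.normSq_eq_norm_sq (m - _),
      Complex.normSq_sub, Complex.normSq_sub, Complex.normSq_div, Complex.normSq_ofReal,
      Complex.normSq_eq_norm_sq m, Complex.normSq_eq_norm_sq (e0 s c), he]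
    have e1 : (m / ((‖m‖ ^ 2 : ℝ) : ℂ) * (starRingEnd ℂ) (e0 s c)).re =
        (m * (starRingEnd ℂ) (e0 s c)).re / ‖m‖ ^ 2 := by
      rw [div_mul_eq_mul_div, Complex.div_ofReal_re]
    rw [e1]
    have hm0 : ‖m‖ ≠ 0 := by intro h0; rw [h0] at hm; simp at hm
    field_simp
    ring

/-- the sigma trick -/
lemma TG_le {X Y : ℂ} {s c E σ : ℝ} (h : s ^ 2 + c ^ 2 = 1) (hσ : 0 ≤ σ) (h1 : σ ≤ E)
    (h2 : ‖mX X Y s c - e0 s c‖ ^ 2 ≤ E + σ * (‖mX X Y s c‖ ^ 2 - 1)) :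
    TG Gc X Y s c ≤ E := by
  have h3 := TG_mul (X := X) (Y := Y) h
  set m := mX X Y s c
  rcases le_or_gt (‖m‖ ^ 2) 1 with h4 | h4
  · rw [max_eq_left h4, mul_one] at h3
    rw [h3]
    have : σ * (‖m‖ ^ 2 - 1) ≤ 0 := mul_nonpos_of_nonneg_of_nonpos hσ (by linarith)
    linarith
  · rw [max_eq_right h4.le] at h3
    have h5 : TG Gc X Y s c * ‖m‖ ^ 2 ≤ E * ‖m‖ ^ 2 := by
      rw [h3]
      have : σ * (‖m‖ ^ 2 - 1) ≤ E * (‖m‖ ^ 2 - 1) :=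
        mul_le_mul_of_nonneg_right h1 (by linarith)
      linarith
    exact le_of_mul_le_mul_right h5 (by linarith)

/-- `‖m - e0‖²` in real coordinates, `q = Y / X` -/
lemma norm_m_sub {X Y : ℂ} {s c : ℝ} (h : s ^ 2 + c ^ 2 = 1) :
    ‖mX X Y s c - e0 s c‖ ^ 2 = 4 * s ^ 2 * ((2 * (X.re - 1) + (Y / X).re) ^ 2
      + (2 * X.im + (Y / X).im) ^ 2) := by
  set q := Y / X with hq
  have e : mX X Y s c - e0 s c = (1 + e0 s c) * (2 * (X - 1) + q) := by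
    rw [mX, ← hq]; ring
  have e2 : ‖1 + e0 s c‖ ^ 2 = 4 * s ^ 2 := by
    rw [← Complex.normSq_eq_norm_sq, Complex.normSq_apply, e0]
    simp [pow_two]
    nlinarith [h, sq_nonneg s, sq_nonneg c]
  rw [e, norm_mul, mul_pow, e2, ← Complex.normSq_eq_norm_sq, Complex.normSq_apply]
  have e3 : (2 * (X - 1) + q).re = 2 * (X.re - 1) + q.re := by simp
  have e4 : (2 * (X - 1) + q).im = 2 * X.im + q.im := by simp
  rw [e3, e4]
  ring

/-- `‖m‖² - 1` in real coordinates -/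
lemma norm_m_sq {X Y : ℂ} {s c : ℝ} (h : s ^ 2 + c ^ 2 = 1) :
    ‖mX X Y s c‖ ^ 2 - 1 = 4 * s ^ 2 * ((2 * X.re - 1 + (Y / X).re) ^ 2
      + (2 * X.im + (Y / X).im) ^ 2) - 4 * s ^ 2 * (2 * X.re - 1 + (Y / X).re)
      + 4 * s * c * (2 * X.im + (Y / X).im) := by
  set q := Y / X with hq
  rw [mX, ← hq, ← Complex.normSq_eq_norm_sq, Complex.normSq_apply, e0]
  simp [pow_two]
  have hc : c * c = 1 - s * s := by nlinarith
  generalize X.re = x at *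
  generalize X.im = y at *
  generalize q.re = a at *
  generalize q.im = b at *
  have : c ^ 2 = 1 - s ^ 2 := by nlinarith
  ring_nf
  have h4 : c ^ 4 = (1 - s ^ 2) ^ 2 := by rw [← this]; ring
  simp only [h4, this]
  ring

end Pool.Agent.Helper71.EK
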