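import Pool.Agent.Helper71.EK.Dg

/-!
The box test for a 2x2 form (and one more polynomial), and trees of boxes.
-/

namespace Pool.EK71

lemma box_pos {N W H : ℕ} (hW : W = 2 * H) {P : List (List ℤ)} (hs : shp (N + 1) P = true)
    {T0 T1 V0 V1 : ℝ} (hT0 : 0 ≤ T0) (hT1 : 0 ≤ T1) (hV0 : 0 ≤ V0) (hV1 : 0 ≤ V1)
    {cA cB cC : ℕ} {A B C : ℤ} {x y Cφ : ℝ} (hCpos : 0 < Cφ)
    (hA : Mk ((W : ℤ) ^ (N + 1)) W T0 T1 V0 V1 cA A (Cφ * x))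
    (hB : Mk ((W : ℤ) ^ (N + 1)) W T0 T1 V0 V1 cB B (Cφ * y))
    (hC : Mk ((W : ℤ) ^ (N + 1)) W T0 T1 V0 V1 cC C Cφ)
    (hc : npol cA cB cC P < H) (ht : tst N W H (hpol A B C P) = true) : 0 ≤ ev2 x y P := by
  have h1 := tst_sound hW hc hT0 hT1 hV0 hV1 (pol_rp hA hB hC P N hs) ht
  have h2 := rpol_ev x y Cφ P N hs
  have h3 : 0 ≤ Cφ ^ (N + 1) * ev2 x y P := by
    rw [← h2]; exact mul_nonneg hCpos.le h1
  exact nonneg_of_mul_nonneg_right h3 (by positivity)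

lemma box_pos2 {N W H : ℕ} (hW : W = 2 * H) {P Q : List (List ℤ)} (hs : shp (N + 1) P = true)
    (hs' : shp (N + 1) Q = true) (i j : ℤ)
    {T0 T1 V0 V1 : ℝ} (hT0 : 0 ≤ T0) (hT1 : 0 ≤ T1) (hV0 : 0 ≤ V0) (hV1 : 0 ≤ V1)
    {cA cB cC : ℕ} {A B C : ℤ} {x y Cφ : ℝ} (hCpos : 0 < Cφ)
    (hA : Mk ((W : ℤ) ^ (N + 1)) W T0 T1 V0 V1 cA A (Cφ * x))
    (hB : Mk ((W : ℤ) ^ (N + 1)) W T0 T1 V0 V1 cB B (Cφ * y))
    (hC : Mk ((W : ℤ) ^ (N + 1)) W T0 T1 V0 V1 cC C Cφ)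
    (hc : i.natAbs * npol cA cB cC P + j.natAbs * npol cA cB cC Q < H)
    (ht : tst N W H (i * hpol A B C P + j * hpol A B C Q) = true) :
    0 ≤ i * ev2 x y P + j * ev2 x y Q := by
  have h1 := tst_sound hW hc hT0 hT1 hV0 hV1
    (((pol_rp hA hB hC P N hs).smul i).add ((pol_rp hA hB hC Q N hs').smul j)) ht
  have h2 := rpol_ev x y Cφ P N hs
  have h2' := rpol_ev x y Cφ Q N hs'
  have h3 : 0 ≤ Cφ ^ (N + 1) * (i * ev2 x y P + j * ev2 x y Q) := by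
    have : Cφ ^ (N + 1) * (i * ev2 x y P + j * ev2 x y Q) =
        Cφ * (i * rpol (Cφ * x) (Cφ * y) Cφ P + j * rpol (Cφ * x) (Cφ * y) Cφ Q) := by
      linear_combination -(i : ℝ) * h2 - (j : ℝ) * h2'
    rw [this]; exact mul_nonneg hCpos.le h1
  exact nonneg_of_mul_nonneg_right h3 (by positivity)

/-- data of one condition -/
structure Dat where
  N : ℕ
  P11 : List (List ℤ)
  P12 : List (List ℤ)
  P22 : List (List ℤ)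
  N' : ℕ
  Q : List (List ℤ)
  H : ℕ

def Dat.shape (D : Dat) : Bool :=
  shp (D.N + 1) D.P11 && shp (D.N + 1) D.P12 && shp (D.N + 1) D.P22 && shp (D.N' + 1) D.Q

/-- what is proved at a point -/
def Good (D : Dat) (x y : ℝ) : Prop :=
  0 ≤ ev2 x y D.P11 ∧ 0 ≤ ev2 x y D.P22 ∧ (ev2 x y D.P12) ^ 2 ≤ ev2 x y D.P11 * ev2 x y D.P22 ∧
    0 ≤ ev2 x y D.Q

/-- two bilinear products, `kind` selects the three forms -/
def frm (kind : ℕ) (X1 X0 Y1 Y0 : ℤ) : ℤ × ℤ × ℤ :=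
  match kind with
  | 0 => (Int.mul X1 Y0, Int.mul X0 Y1, Int.mul X0 Y0)
  | 1 => (Int.mul X1 Y0, Int.mul X1 Y1, Int.mul X0 Y0)
  | 2 => (Int.mul X1 Y1, Int.mul X1 Y0, Int.mul X0 Y0)
  | _ => (Int.mul (Int.neg X1) Y0, Int.mul X1 Y1, Int.mul X0 Y0)

def nfrm (kind : ℕ) (X1 X0 Y1 Y0 : ℕ) : ℕ × ℕ × ℕ :=
  match kind with
  | 0 => (X1 * Y0, X0 * Y1, X0 * Y0)
  | 1 => (X1 * Y0, X1 * Y1, X0 * Y0)
  | 2 => (X1 * Y1, X1 * Y0, X0 * Y0)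
  | _ => (X1 * Y0, X1 * Y1, X0 * Y0)

/-- the test of the four combinations, given the three numbers -/
def four (N W H : ℕ) (l : ℤ) (v11 v12 v22 : ℤ) : Bool :=
  tst N W H (Int.add (Int.mul 16 v11) (Int.mul l v12)) &&
  tst N W H (Int.add (Int.mul 16 v11) (Int.mul (Int.neg l) v12)) &&
  tst N W H (Int.add (Int.mul l v22) (Int.mul 16 v12)) &&
  tst N W H (Int.add (Int.mul l v22) (Int.mul (-16) v12))

/-- the norm test -/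
def nfour (H l c11 c12 c22 : ℕ) : Bool :=
  Nat.blt (16 * c11 + l * c12) H && Nat.blt (l * c22 + 16 * c12) H

/-- test of a box: `x`-part `(a,b,e,g)`, `y`-part `(c,d,e')` -/
def bx (D : Dat) (kind : ℕ) (l : ℕ) (a b e g c d e' : ℤ) : Bool :=
  let W := 2 * D.H
  let w : ℤ := Int.ofNat W
  let z : ℤ := Int.ofNat (W ^ (D.N + 1))
  let z' : ℤ := Int.ofNat (W ^ (D.N' + 1))
  let Y1 := Int.add c (Int.mul d w)
  let Y0 := Int.add e' (Int.mul e' w)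
  let F := frm kind (Int.add a (Int.mul b z)) (Int.add e (Int.mul g z)) Y1 Y0
  let F' := frm kind (Int.add a (Int.mul b z')) (Int.add e (Int.mul g z')) Y1 Y0
  let n := nfrm kind (a.natAbs + b.natAbs) (e.natAbs + g.natAbs) (c.natAbs + d.natAbs)
    (e'.natAbs + e'.natAbs)
  Nat.blt 0 l &&
  four D.N W D.H (Int.ofNat l) (hpol F.1 F.2.1 F.2.2 D.P11) (hpol F.1 F.2.1 F.2.2 D.P12)
    (hpol F.1 F.2.1 F.2.2 D.P22) &&
  nfour D.H l (npol n.1 n.2.1 n.2.2 D.P11) (npol n.1 n.2.1 n.2.2 D.P12)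
    (npol n.1 n.2.1 n.2.2 D.P22) &&
  tst D.N' W D.H (hpol F'.1 F'.2.1 F'.2.2 D.Q) &&
  Nat.blt (npol n.1 n.2.1 n.2.2 D.Q) D.H

lemma good_of {u v w l : ℝ} (hl : 0 < l) (h1 : 0 ≤ 16 * u + l * v) (h2 : 0 ≤ 16 * u + -l * v)
    (h3 : 0 ≤ l * w + 16 * v) (h4 : 0 ≤ l * w + -16 * v) :
    0 ≤ u ∧ 0 ≤ w ∧ v ^ 2 ≤ u * w := by
  have hu : 0 ≤ u := by linarith
  have hw : 0 ≤ w := by
    have : 0 ≤ l * w := by linarith
    exact nonneg_of_mul_nonneg_right this hl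
  refine ⟨hu, hw, ?_⟩
  have a1 : l * |v| ≤ 16 * u := by
    rcases abs_cases v with ⟨h, _⟩ | ⟨h, _⟩ <;> rw [h] <;> linarith
  have a2 : 16 * |v| ≤ l * w := by
    rcases abs_cases v with ⟨h, _⟩ | ⟨h, _⟩ <;> rw [h] <;> linarith
  have a3 : (l * |v|) * (16 * |v|) ≤ (16 * u) * (l * w) :=
    mul_le_mul a1 a2 (by positivity) (by positivity)
  have a4 : |v| * |v| = v ^ 2 := by rw [← sq, sq_abs]
  have : (16 * l) * v ^ 2 ≤ (16 * l) * (u * w) := by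
    calc (16 * l) * v ^ 2 = (l * |v|) * (16 * |v|) := by rw [← a4]; ring
      _ ≤ _ := a3
      _ = _ := by ring
  exact le_of_mul_le_mul_left this (by positivity)

/-- abstract soundness: the three forms represent `Cφ x`, `Cφ y`, `Cφ` -/
lemma bx_sound {D : Dat} (hs : D.shape = true) {kind l : ℕ} {a b e g c d e' : ℤ}
    (hb : bx D kind l a b e g c d e' = true) {T0 T1 V0 V1 : ℝ} (hT0 : 0 ≤ T0) (hT1 : 0 ≤ T1)
    (hV0 : 0 ≤ V0) (hV1 : 0 ≤ V1) {x y Cφ : ℝ} (hCpos : 0 < Cφ)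
    (hF : ∀ Z W : ℤ,
      Mk Z W T0 T1 V0 V1 (nfrm kind (a.natAbs + b.natAbs) (e.natAbs + g.natAbs)
        (c.natAbs + d.natAbs) (e'.natAbs + e'.natAbs)).1
        (frm kind (a + b * Z) (e + g * Z) (c + d * W) (e' + e' * W)).1 (Cφ * x) ∧
      Mk Z W T0 T1 V0 V1 (nfrm kind (a.natAbs + b.natAbs) (e.natAbs + g.natAbs)
        (c.natAbs + d.natAbs) (e'.natAbs + e'.natAbs)).2.1
        (frm kind (a + b * Z) (e + g * Z) (c + d * W) (e' + e' * W)).2.1 (Cφ * y) ∧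
      Mk Z W T0 T1 V0 V1 (nfrm kind (a.natAbs + b.natAbs) (e.natAbs + g.natAbs)
        (c.natAbs + d.natAbs) (e'.natAbs + e'.natAbs)).2.2
        (frm kind (a + b * Z) (e + g * Z) (c + d * W) (e' + e' * W)).2.2 Cφ) :
    Good D x y := by
  simp only [bx, Bool.and_eq_true] at hb
  obtain ⟨⟨⟨⟨hl, h4⟩, hn⟩, hq⟩, hqn⟩ := hb
  simp only [four, Bool.and_eq_true] at h4
  obtain ⟨⟨⟨t1, t2⟩, t3⟩, t4⟩ := h4
  simp only [nfour, Bool.and_eq_true] at hn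
  obtain ⟨n1, n2⟩ := hn
  have n1 := Eq.mp Nat.blt_eq n1
  have n2 := Eq.mp Nat.blt_eq n2
  have hl := Eq.mp Nat.blt_eq hl
  have hqn := Eq.mp Nat.blt_eq hqn
  simp only [Dat.shape, Bool.and_eq_true] at hs
  obtain ⟨⟨⟨s11, s12⟩, s22⟩, sQ⟩ := hs
  have hW : 2 * D.H = 2 * D.H := rfl
  have cW : (Int.ofNat (2 * D.H) : ℤ) = ((2 * D.H : ℕ) : ℤ) := rfl
  have cZ : (Int.ofNat ((2 * D.H) ^ (D.N + 1)) : ℤ) = ((2 * D.H : ℕ) : ℤ) ^ (D.N + 1) := by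
    show (((2 * D.H) ^ (D.N + 1) : ℕ) : ℤ) = _
    push_cast; ring
  have cZ' : (Int.ofNat ((2 * D.H) ^ (D.N' + 1)) : ℤ) = ((2 * D.H : ℕ) : ℤ) ^ (D.N' + 1) := by
    show (((2 * D.H) ^ (D.N' + 1) : ℕ) : ℤ) = _
    push_cast; ring
  obtain ⟨fA, fB, fC⟩ := hF (((2 * D.H : ℕ) : ℤ) ^ (D.N + 1)) ((2 * D.H : ℕ) : ℤ)
  obtain ⟨gA, gB, gC⟩ := hF (((2 * D.H : ℕ) : ℤ) ^ (D.N' + 1)) ((2 * D.H : ℕ) : ℤ)
  rw [cW, cZ] at t1 t2 t3 t4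
  rw [cW, cZ'] at hq
  have r1 := box_pos2 hW s11 s12 16 (l : ℤ) hT0 hT1 hV0 hV1 hCpos fA fB fC
    (by simpa using n1) t1
  have r2 := box_pos2 hW s11 s12 16 (-(l : ℤ)) hT0 hT1 hV0 hV1 hCpos fA fB fC
    (by simpa using n1) t2
  have r3 := box_pos2 hW s22 s12 (l : ℤ) 16 hT0 hT1 hV0 hV1 hCpos fA fB fC
    (by simpa using n2) t3
  have r4 := box_pos2 hW s22 s12 (l : ℤ) (-16) hT0 hT1 hV0 hV1 hCpos fA fB fC
    (by simpa using n2) t4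
  have r5 := box_pos hW sQ hT0 hT1 hV0 hV1 hCpos gA gB gC hqn hq
  have hl' : (0 : ℝ) < (l : ℝ) := by exact_mod_cast hl
  push_cast at r1 r2 r3 r4
  obtain ⟨g1, g2, g3⟩ := good_of hl' r1 r2 r3 r4
  exact ⟨g1, g2, g3, r5⟩

end Pool.EK71
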