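import Pool.Agent.Helper71.EK.Alg
import Pool.Agent.Helper2.EK.Fns

/-!
Project EK, E5: from the six polynomials to the pointwise inequality.
-/

set_option autoImplicit false
open Complex MeasureTheory Metric Set
open scoped Real ComplexConjugate

namespace Pool.Agent.Helper71.EK

open Pool.Agent.Helper52.EK Pool.Agent.Helper2.EK

/-- real part of `N D + (1/2)(X-1)((Nx - i Ny) D - 20 N conj X)` -/
noncomputable def nr (N Nx Ny x y : ℝ) : ℝ :=
  N * Dp x y + 1 / 2 * ((x - 1) * (Nx * Dp x y - 20 * N * x) - y * (20 * N * y - Ny * Dp x y))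

/-- imaginary part -/
noncomputable def ni (N Nx Ny x y : ℝ) : ℝ :=
  1 / 2 * ((x - 1) * (20 * N * y - Ny * Dp x y) + y * (Nx * Dp x y - 20 * N * x))

noncomputable def a1 (x y : ℝ) : ℝ := nr (NW x y) (NWx x y) (NWy x y) x y - ni (NV x y) 0 (-14) x y
noncomputable def a2 (x y : ℝ) : ℝ := ni (NW x y) (NWx x y) (NWy x y) x y + nr (NV x y) 0 (-14) x y
noncomputable def b1 (x y : ℝ) : ℝ :=
  nr (NW2 x y) (NW2x x y) (NW2y x y) x y - ni (NV2 x y) (NV2x x y) (NV2y x y) x y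
noncomputable def b2 (x y : ℝ) : ℝ :=
  ni (NW2 x y) (NW2x x y) (NW2y x y) x y + nr (NV2 x y) (NV2x x y) (NV2y x y) x y

noncomputable def Sg (x y : ℝ) : ℝ := 19 / 10 * Dp x y

noncomputable def Na (x y : ℝ) : ℝ := 179 / 20 * Dp x y ^ 2 - Sg x y + 2 * (NU x y - NV2 x y)
noncomputable def Ng (x y : ℝ) : ℝ := 179 / 20 * Dp x y ^ 2 - Sg x y - 2 * (NU x y - NV2 x y)
noncomputable def Nb (x y : ℝ) : ℝ := NV x y

noncomputable def m11 (x y : ℝ) : ℝ := N4 x y * Na x y - (a1 x y ^ 2 + a2 x y ^ 2)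
noncomputable def m12 (x y : ℝ) : ℝ :=
  N4 x y * Nb x y - 2 * (a1 x y * b1 x y + a2 x y * b2 x y)
noncomputable def m22 (x y : ℝ) : ℝ := N4 x y * Ng x y - 4 * (b1 x y ^ 2 + b2 x y ^ 2)

noncomputable def N2 (x y : ℝ) : ℝ :=
  (x ^ 2 + y ^ 2) * N4 x y - 4 * Dp x y ^ 4 + 4 * Sg x y * Fp x y * Dp x y ^ 2
noncomputable def Na2 (x y : ℝ) : ℝ :=
  179 / 20 * Dp x y ^ 2 + 2 * (NU x y - NV2 x y) - 16 * Dp x y ^ 2
    + Sg x y * (16 * Fp x y + 8 * (x - 1))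
noncomputable def Ng2 (x y : ℝ) : ℝ := 179 / 20 * Dp x y ^ 2 - 2 * (NU x y - NV2 x y)
noncomputable def Nb2 (x y : ℝ) : ℝ := NV x y + 4 * Sg x y * y
noncomputable def A21 (x y : ℝ) : ℝ := 2 * (x * a1 x y - y * a2 x y) - 16 * Dp x y ^ 3
  + Sg x y * Dp x y * (16 * Fp x y + 4 * (x - 1))
noncomputable def A22 (x y : ℝ) : ℝ := 2 * (x * a2 x y + y * a1 x y) + Sg x y * Dp x y * (4 * y)
noncomputable def B21 (x y : ℝ) : ℝ := 2 * (x * b1 x y - y * b2 x y) + Sg x y * Dp x y * (2 * y)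
noncomputable def B22 (x y : ℝ) : ℝ :=
  2 * (x * b2 x y + y * b1 x y) - Sg x y * Dp x y * (2 * (x - 1))

noncomputable def M11 (x y : ℝ) : ℝ := 4 * N2 x y * Na2 x y - (A21 x y ^ 2 + A22 x y ^ 2)
noncomputable def M12 (x y : ℝ) : ℝ :=
  4 * N2 x y * Nb2 x y - 2 * (A21 x y * B21 x y + A22 x y * B22 x y)
noncomputable def M22 (x y : ℝ) : ℝ := 4 * N2 x y * Ng2 x y - 4 * (B21 x y ^ 2 + B22 x y ^ 2)


/-- the right side of the certificate -/
noncomputable def EE (x y y1 y2 s c : ℝ) : ℝ :=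
  179 / 20 * Fp x y
    + (s ^ 2 * (N4 x y / Dp x y ^ 4) * (y1 ^ 2 + y2 ^ 2)
      - 2 * (c ^ 2 - s ^ 2) * gW (NU x y) x y)
    + (s ^ 2 * (gWx (NW x y) (NWx x y) x y * y1 + gWy (NW x y) (NWy x y) x y * y2)
      + 2 * s * c * (gWx (NW2 x y) (NW2x x y) x y * y1 + gWy (NW2 x y) (NW2y x y) x y * y2))
    + (s ^ 2 * (-gWx (NV x y) 0 x y * y2 + gWy (NV x y) (-14) x y * y1)
      + 2 * s * c * gW (NV x y) x y)
    + (2 * s * c * (-gWx (NV2 x y) (NV2x x y) x y * y2 + gWy (NV2 x y) (NV2y x y) x y * y1)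
      + 2 * (c ^ 2 - s ^ 2) * gW (NV2 x y) x y)

/-- first condition: `E ≥ σ` -/
lemma cond1 {x y : ℝ} (hN : 0 < N4 x y) (h11 : 0 ≤ m11 x y) (h22 : 0 ≤ m22 x y)
    (h12 : m12 x y ^ 2 ≤ m11 x y * m22 x y) {s c : ℝ} (h : s ^ 2 + c ^ 2 = 1) (y1 y2 : ℝ) :
    Fp x y * Sg x y / Dp x y ^ 2 ≤ EE x y y1 y2 s c := by
  have hq := form2 h11 h22 h12 s c
  have hsq := square (D := Dp x y) (N := N4 x y)
    (h := Na x y * s ^ 2 + 2 * Nb x y * (s * c) + Ng x y * c ^ 2)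
    (g1 := s * a1 x y + 2 * c * b1 x y) (g2 := s * a2 x y + 2 * c * b2 x y)
    (f1 := x - 1) (f2 := y) (Dp_pos x y) hN
    (by unfold m11 m12 m22 at hq; linarith) (s * y1) (s * y2)
  have hD := Dp_pos x y
  have e : EE x y y1 y2 s c - Fp x y * Sg x y / Dp x y ^ 2 =
      N4 x y / Dp x y ^ 4 * ((s * y1) ^ 2 + (s * y2) ^ 2)
      + 2 / Dp x y ^ 3 * (((x - 1) * (s * a1 x y + 2 * c * b1 x y)
        + y * (s * a2 x y + 2 * c * b2 x y)) * (s * y1)
        - ((x - 1) * (s * a2 x y + 2 * c * b2 x y) - y * (s * a1 x y + 2 * c * b1 x y)) * (s * y2))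
      + ((x - 1) ^ 2 + y ^ 2) * (Na x y * s ^ 2 + 2 * Nb x y * (s * c) + Ng x y * c ^ 2)
        / Dp x y ^ 2
      + Fp x y * (179 / 20 * Dp x y ^ 2 - Sg x y) * (1 - s ^ 2 - c ^ 2) / Dp x y ^ 2 := by
    unfold EE gW gWx gWy a1 a2 b1 b2 nr ni Na Nb Ng
    generalize N4 x y = n4
    generalize NU x y = nu
    generalize NV x y = nv
    generalize NV2 x y = nv2
    generalize NV2x x y = nv2x
    generalize NV2y x y = nv2y
    generalize NW x y = nw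
    generalize NWx x y = nwx
    generalize NWy x y = nwy
    generalize NW2 x y = nw2
    generalize NW2x x y = nw2x
    generalize NW2y x y = nw2y
    generalize Sg x y = sg
    generalize Dp x y = D at hD ⊢
    unfold Fp
    field_simp
    ring
  have : (1 - s ^ 2 - c ^ 2 : ℝ) = 0 := by linarith
  rw [this, mul_zero, zero_div, add_zero] at e
  linarith

/-- second condition -/
lemma cond2 {x y : ℝ} (hN : 0 < N2 x y) (h11 : 0 ≤ M11 x y) (h22 : 0 ≤ M22 x y)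
    (h12 : M12 x y ^ 2 ≤ M11 x y * M22 x y) {s c : ℝ} (h : s ^ 2 + c ^ 2 = 1) (q1 q2 : ℝ) :
    4 * s ^ 2 * ((2 * (x - 1) + q1) ^ 2 + (2 * y + q2) ^ 2) ≤
      EE x y (x * q1 - y * q2) (x * q2 + y * q1) s c
      + Fp x y * Sg x y / Dp x y ^ 2 * (4 * s ^ 2 * ((2 * x - 1 + q1) ^ 2 + (2 * y + q2) ^ 2)
        - 4 * s ^ 2 * (2 * x - 1 + q1) + 4 * s * c * (2 * y + q2)) := by
  have hq := form2 h11 h22 h12 s c
  have hsq := square (D := Dp x y) (N := N2 x y)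
    (h := Na2 x y * s ^ 2 + 2 * Nb2 x y * (s * c) + Ng2 x y * c ^ 2)
    (g1 := s * A21 x y / 2 + c * B21 x y) (g2 := s * A22 x y / 2 + c * B22 x y)
    (f1 := x - 1) (f2 := y) (Dp_pos x y) hN
    (by unfold M11 M12 M22 at hq; linarith) (s * q1) (s * q2)
  have hD := Dp_pos x y
  have e : EE x y (x * q1 - y * q2) (x * q2 + y * q1) s c
      + Fp x y * Sg x y / Dp x y ^ 2 * (4 * s ^ 2 * ((2 * x - 1 + q1) ^ 2 + (2 * y + q2) ^ 2)
        - 4 * s ^ 2 * (2 * x - 1 + q1) + 4 * s * c * (2 * y + q2))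
      - 4 * s ^ 2 * ((2 * (x - 1) + q1) ^ 2 + (2 * y + q2) ^ 2) =
      N2 x y / Dp x y ^ 4 * ((s * q1) ^ 2 + (s * q2) ^ 2)
      + 2 / Dp x y ^ 3 * (((x - 1) * (s * A21 x y / 2 + c * B21 x y)
        + y * (s * A22 x y / 2 + c * B22 x y)) * (s * q1)
        - ((x - 1) * (s * A22 x y / 2 + c * B22 x y)
          - y * (s * A21 x y / 2 + c * B21 x y)) * (s * q2))
      + ((x - 1) ^ 2 + y ^ 2) * (Na2 x y * s ^ 2 + 2 * Nb2 x y * (s * c) + Ng2 x y * c ^ 2)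
        / Dp x y ^ 2
      + Fp x y * (179 / 20) * (1 - s ^ 2 - c ^ 2) := by
    unfold EE gW gWx gWy A21 A22 B21 B22 a1 a2 b1 b2 nr ni Na2 Nb2 Ng2 N2
    generalize N4 x y = n4
    generalize NU x y = nu
    generalize NV x y = nv
    generalize NV2 x y = nv2
    generalize NV2x x y = nv2x
    generalize NV2y x y = nv2y
    generalize NW x y = nw
    generalize NWx x y = nwx
    generalize NWy x y = nwy
    generalize NW2 x y = nw2
    generalize NW2x x y = nw2x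
    generalize NW2y x y = nw2y
    generalize Sg x y = sg
    generalize Dp x y = D at hD ⊢
    unfold Fp
    field_simp
    ring
  have : (1 - s ^ 2 - c ^ 2 : ℝ) = 0 := by linarith
  rw [this, mul_zero, add_zero] at e
  linarith

end Pool.Agent.Helper71.EK
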