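import Pool.Agent.Helper71.EK.Kr

/-!
Digits of a Kronecker value with small coefficients, and the box test.
-/

namespace Pool.EK71

open Finset

/-- coefficient at `(k, l)` of a list of terms -/
def qq (L : List (ℤ × ℕ × ℕ)) (k l : ℕ) : ℤ :=
  (L.map (fun t => if k = t.2.1 then (if l = t.2.2 then t.1 else 0) else 0)).sum

lemma qq_cons (t : ℤ × ℕ × ℕ) (L : List (ℤ × ℕ × ℕ)) (k l : ℕ) :
    qq (t :: L) k l = (if k = t.2.1 then (if l = t.2.2 then t.1 else 0) else 0) + qq L k l := by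
  simp [qq]

lemma qq_abs (L : List (ℤ × ℕ × ℕ)) (k l : ℕ) :
    |qq L k l| ≤ ((L.map (fun t => t.1.natAbs)).sum : ℕ) := by
  induction L with
  | nil => simp [qq]
  | cons t L ih =>
    rw [qq_cons, List.map_cons, List.sum_cons]
    push_cast
    refine (abs_add_le _ _).trans (add_le_add ?_ (by push_cast at ih; exact ih))
    split_ifs <;> simp

lemma grp {R : Type*} [CommRing R] (N M : ℕ) (L : List (ℤ × ℕ × ℕ))
    (h : ∀ t ∈ L, t.2.1 ≤ N ∧ t.2.2 ≤ M) (F : ℕ → ℕ → R) :
    (L.map (fun t => (t.1 : R) * F t.2.1 t.2.2)).sum =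
      ∑ k ∈ range (N + 1), ∑ l ∈ range (M + 1), (qq L k l : R) * F k l := by
  induction L with
  | nil => simp [qq]
  | cons t L ih =>
    have ht := h t (by simp)
    rw [List.map_cons, List.sum_cons, ih (fun s hs => h s (by simp [hs]))]
    have e : ∀ k l, (qq (t :: L) k l : R) * F k l =
        (if k = t.2.1 then (if l = t.2.2 then (t.1 : R) * F k l else 0) else 0)
          + (qq L k l : R) * F k l := by
      intro k l
      rw [qq_cons]; split_ifs <;> push_cast <;> ring
    simp_rw [e, Finset.sum_add_distrib]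
    congr 1
    rw [Finset.sum_eq_single t.2.1]
    · rw [Finset.sum_eq_single t.2.2]
      · simp
      · intro l _ hl; simp [hl]
      · intro hl; exact absurd (Finset.mem_range.2 (by omega)) hl
    · intro k _ hk; simp [hk]
    · intro hk; exact absurd (Finset.mem_range.2 (by omega)) hk

lemma dig_row (W H : ℕ) (hW : W = 2 * H) (a b : ℕ) (q : ℕ → ℤ) (hq : ∀ l, |q l| < H)
    (R : ℤ) (T : ℕ) (hT : (T : ℤ) = ∑ l ∈ range a, q l * (W : ℤ) ^ l + (W : ℤ) ^ a * R)
    (h : dig W H (a + b) T = true) :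
    (∀ l < a, 0 ≤ q l) ∧ ∃ T' : ℕ, (T' : ℤ) = R ∧ dig W H b T' = true := by
  induction a generalizing q R T with
  | zero =>
    refine ⟨fun l hl => absurd hl (Nat.not_lt_zero _), T, by simpa using hT, by simpa using h⟩
  | succ a ih =>
    have e : a + 1 + b = (a + b) + 1 := by omega
    rw [e, dig, Bool.and_eq_true] at h
    have h1 : T % W < H := Nat.lt_of_succ_le (Nat.le_of_ble_eq_true h.1)
    set S : ℤ := ∑ l ∈ range a, q (l + 1) * (W : ℤ) ^ l + (W : ℤ) ^ a * R with hS
    have hTS : (T : ℤ) = q 0 + W * S := by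
      rw [hT, Finset.sum_range_succ', hS, mul_add, Finset.mul_sum]
      have : ∀ l ∈ range a, q (l + 1) * (W : ℤ) ^ (l + 1) = W * (q (l + 1) * (W : ℤ) ^ l) := by
        intro l _; ring
      rw [Finset.sum_congr rfl this]; ring
    have hdm : (T : ℤ) = (T % W : ℕ) + W * (T / W : ℕ) := by
      exact_mod_cast (Nat.mod_add_div T W).symm
    have hq0 := abs_lt.1 (hq 0)
    have hHpos : 0 < H := by omega
    have hWz : (W : ℤ) = 2 * H := by rw [hW]; push_cast; ring
    have hm0 : (0 : ℤ) ≤ (T % W : ℕ) := Int.natCast_nonneg _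
    have hm1 : ((T % W : ℕ) : ℤ) < H := by exact_mod_cast h1
    have hdiff : (W : ℤ) * (((T / W : ℕ) : ℤ) - S) = q 0 - (T % W : ℕ) := by
      have := hTS.symm.trans hdm
      linear_combination -this
    have hz : ((T / W : ℕ) : ℤ) - S = 0 := by
      by_contra hne
      have hge : (1 : ℤ) ≤ |((T / W : ℕ) : ℤ) - S| := Int.one_le_abs hne
      have habs : |(W : ℤ) * (((T / W : ℕ) : ℤ) - S)| < W := by
        rw [hdiff, abs_lt]; constructor <;> linarith [hq0.1, hq0.2]
      rw [abs_mul, abs_of_nonneg (by omega : (0 : ℤ) ≤ W)] at habs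
      have : (W : ℤ) * 1 ≤ W * |((T / W : ℕ) : ℤ) - S| :=
        mul_le_mul_of_nonneg_left hge (by omega)
      linarith
    have hq00 : 0 ≤ q 0 := by
      rw [hz, mul_zero] at hdiff; linarith
    obtain ⟨i1, i2⟩ := ih (fun l => q (l + 1)) (fun l => hq (l + 1)) R (T / W)
      (by rw [← hS]; linarith) h.2
    refine ⟨fun l hl => ?_, i2⟩
    cases l with
    | zero => exact hq00
    | succ l => exact i1 l (by omega)

lemma dig_all (W H : ℕ) (hW : W = 2 * H) (M n : ℕ) (q : ℕ → ℕ → ℤ)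
    (hq : ∀ k l, |q k l| < H) (T : ℕ)
    (hT : (T : ℤ) = ∑ k ∈ range n, (∑ l ∈ range M, q k l * (W : ℤ) ^ l) * ((W : ℤ) ^ M) ^ k)
    (h : dig W H (n * M) T = true) : ∀ k < n, ∀ l < M, 0 ≤ q k l := by
  induction n generalizing q T with
  | zero => intro k hk; exact absurd hk (Nat.not_lt_zero _)
  | succ n ih =>
    have e : (n + 1) * M = M + n * M := by ring
    rw [e] at h
    obtain ⟨h1, T', hT', h2⟩ := dig_row W H hW M (n * M) (q 0) (hq 0)
      (∑ k ∈ range n, (∑ l ∈ range M, q (k + 1) l * (W : ℤ) ^ l) * ((W : ℤ) ^ M) ^ k) T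
      (by
        rw [hT, Finset.sum_range_succ', Finset.mul_sum, add_comm]
        congr 1
        · simp
        · refine Finset.sum_congr rfl (fun k _ => ?_)
          rw [pow_succ]; ring) h
    have h3 := ih (fun k l => q (k + 1) l) (fun k l => hq (k + 1) l) T' hT' h2
    intro k hk l hl
    cases k with
    | zero => exact h1 l hl
    | succ k => exact h3 k (by omega) l hl

/-- the number test -/
def tst (N W H : ℕ) : ℤ → Bool
  | Int.ofNat v => dig W H ((N + 1) * (N + 1)) v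
  | Int.negSucc _ => false

lemma tst_sound {N W H c : ℕ} (hW : W = 2 * H) (hc : c < H) {T0 T1 V0 V1 : ℝ}
    (hT0 : 0 ≤ T0) (hT1 : 0 ≤ T1) (hV0 : 0 ≤ V0) (hV1 : 0 ≤ V1) {v : ℤ} {φ : ℝ}
    (h : Rp ((W : ℤ) ^ (N + 1)) W T0 T1 V0 V1 N N c v φ) (ht : tst N W H v = true) :
    0 ≤ φ := by
  obtain ⟨L, h1, h2, h3, h4⟩ := h
  cases v with
  | negSucc v => simp [tst] at ht
  | ofNat v =>
    simp only [tst] at ht
    have hpos := dig_all W H hW (N + 1) (N + 1) (qq L)
      (fun k l => lt_of_le_of_lt (qq_abs L k l) (by exact_mod_cast lt_of_le_of_lt h2 hc)) v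
      (by
        have h3' : ((v : ℕ) : ℤ) = (L.map (fun t : ℤ × ℕ × ℕ =>
            t.1 * ((W : ℤ) ^ (N + 1)) ^ t.2.1 * (W : ℤ) ^ t.2.2)).sum := h3
        rw [h3']
        have := grp (R := ℤ) N N L h1 (fun k l => ((W : ℤ) ^ (N + 1)) ^ k * (W : ℤ) ^ l)
        simp only [Int.cast_id] at this
        rw [show (fun t : ℤ × ℕ × ℕ => t.1 * ((W : ℤ) ^ (N + 1)) ^ t.2.1 * (W : ℤ) ^ t.2.2) =
          fun t : ℤ × ℕ × ℕ => t.1 * (((W : ℤ) ^ (N + 1)) ^ t.2.1 * (W : ℤ) ^ t.2.2) from by
            funext t; ring, this]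
        refine Finset.sum_congr rfl (fun k _ => ?_)
        rw [Finset.sum_mul]
        refine Finset.sum_congr rfl (fun l _ => ?_)
        ring) ht
    have h5 := grp (R := ℝ) N N L h1
      (fun k l => (T1 ^ k * T0 ^ (N - k)) * (V1 ^ l * V0 ^ (N - l)))
    rw [h4, show (fun t : ℤ × ℕ × ℕ => (t.1 : ℝ) * (T1 ^ t.2.1 * T0 ^ (N - t.2.1)) *
      (V1 ^ t.2.2 * V0 ^ (N - t.2.2))) = fun t : ℤ × ℕ × ℕ => (t.1 : ℝ) *
      ((T1 ^ t.2.1 * T0 ^ (N - t.2.1)) * (V1 ^ t.2.2 * V0 ^ (N - t.2.2))) from by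
        funext t; ring, h5]
    refine Finset.sum_nonneg (fun k hk => Finset.sum_nonneg (fun l hl => ?_))
    have hkl := hpos k (Finset.mem_range.1 hk) l (Finset.mem_range.1 hl)
    have : (0 : ℝ) ≤ (qq L k l : ℝ) := by exact_mod_cast hkl
    positivity

lemma rrow_ev (y C : ℝ) (l : List ℤ) :
    (rrow (C * y) C l).2 = C ^ l.length ∧ C * (rrow (C * y) C l).1 = C ^ l.length * ev1 y l := by
  induction l with
  | nil => simp [rrow, ev1]
  | cons a l ih =>
    obtain ⟨i1, i2⟩ := ih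
    simp only [rrow, ev1, List.length_cons, i1]
    refine ⟨by ring, ?_⟩
    linear_combination C * y * i2

lemma rpol_ev (x y C : ℝ) (P : List (List ℤ)) (N : ℕ) (hs : shp (N + 1) P = true) :
    C * rpol (C * x) (C * y) C P = C ^ (N + 1) * ev2 x y P := by
  induction P generalizing N with
  | nil => simp [rpol, ev2]
  | cons r P ih =>
    simp only [shp, Bool.and_eq_true] at hs
    have hr : r.length = N + 1 := Nat.eq_of_beq_eq_true hs.1
    have h1 := (rrow_ev y C r).2
    rw [hr] at h1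
    rcases Nat.eq_zero_or_pos N with h0 | hpos
    · subst h0
      have hP : P = [] := by
        cases P with
        | nil => rfl
        | cons a b => have := hs.2; simp [shp] at this
      subst hP
      simp only [rpol, ev2]
      linear_combination h1
    · obtain ⟨m, rfl⟩ : ∃ m, N = m + 1 := ⟨N - 1, by omega⟩
      have h2 := ih m hs.2
      simp only [rpol, ev2]
      linear_combination h1 + C * x * h2

end Pool.EK71
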