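import Pool.Agent.Helper71.EK.Core
import Pool.Agent.Helper71.EK.Dt

/-!
Project EK, E5: the integer lists are the polynomials of the certificate.
-/

set_option autoImplicit false

namespace Pool.Agent.Helper71.EK

open Pool.Agent.Helper52.EK Pool.Agent.Helper2.EK Pool.EK71

set_option maxHeartbeats 4000000

lemma l_N4 (x y : ℝ) : ev2 x y D1Q = 20 * N4 x y - 20 := by
  simp only [ev2, ev1, D1Q, N4, hh, hx, hy, hLap, NU, NUx, NUy, NUxx, NUyy, Fp, Dp]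
  push_cast
  ring

lemma l_11 (x y : ℝ) : ev2 x y D1P11 = 1600 * m11 x y := by
  simp only [ev2, ev1, D1P11, m11, Na, Sg, a1, a2, nr, ni, NV, NV2, NW, NWx, NWy, N4, hh, hx, hy,
    hLap, NU, NUx, NUy, NUxx, NUyy, Fp, Dp]
  push_cast
  ring

lemma l_12 (x y : ℝ) : ev2 x y D1P12 = 1600 * m12 x y := by
  simp only [ev2, ev1, D1P12, m12, Nb, a1, a2, b1, b2, nr, ni, NV, NV2, NV2x, NV2y, NW, NWx,
    NWy, NW2, NW2x, NW2y, N4, hh, hx, hy, hLap, NU, NUx, NUy, NUxx, NUyy, Fp, Dp]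
  push_cast
  ring

lemma l_22 (x y : ℝ) : ev2 x y D1P22 = 1600 * m22 x y := by
  simp only [ev2, ev1, D1P22, m22, Ng, Sg, b1, b2, nr, ni, NV2, NV2x, NV2y,
    NW2, NW2x, NW2y, N4, hh, hx, hy, hLap, NU, NUx, NUy, NUxx, NUyy, Fp, Dp]
  push_cast
  ring

lemma l_N2 (x y : ℝ) : ev2 x y D2Q = 20 * N2 x y - 20 := by
  simp only [ev2, ev1, D2Q, N2, Sg, N4, hh, hx, hy, hLap, NU, NUx, NUy, NUxx, NUyy, Fp, Dp]
  push_cast
  ring

lemma L_11 (x y : ℝ) : ev2 x y D2P11 = 1600 * M11 x y := by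
  simp only [ev2, ev1, D2P11, M11, Na2, N2, A21, A22, Sg, a1, a2, nr, ni, NV, NV2, NW, NWx, NWy,
    N4, hh, hx, hy, hLap, NU, NUx, NUy, NUxx, NUyy, Fp, Dp]
  push_cast
  ring

lemma L_12 (x y : ℝ) : ev2 x y D2P12 = 1600 * M12 x y := by
  simp only [ev2, ev1, D2P12, M12, Nb2, N2, A21, A22, B21, B22, Sg, a1, a2, b1, b2, nr, ni, NV,
    NV2, NV2x, NV2y, NW, NWx, NWy, NW2, NW2x, NW2y, N4, hh, hx, hy, hLap, NU, NUx, NUy, NUxx,
    NUyy, Fp, Dp]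
  push_cast
  ring

lemma L_22 (x y : ℝ) : ev2 x y D2P22 = 1600 * M22 x y := by
  simp only [ev2, ev1, D2P22, M22, Ng2, N2, B21, B22, Sg, b1, b2, nr, ni,
    NV2, NV2x, NV2y, NW2, NW2x, NW2y, N4, hh, hx, hy, hLap, NU, NUx, NUy, NUxx,
    NUyy, Fp, Dp]
  push_cast
  ring

end Pool.Agent.Helper71.EK
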