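import Pool.Agent.Helper71.EK.Bx

/-!
Trees of boxes and the cover of the half plane `y ≥ 0`.
-/

namespace Pool.EK71

/-- `Mk` for the four kinds of forms -/
lemma mk_frm {Z W : ℤ} {T0 T1 V0 V1 : ℝ} (a b e g c d e' : ℤ) {X1 X0 Y1 Y0 : ℝ}
    (hX1 : X1 = a * T0 + b * T1) (hX0 : X0 = e * T0 + g * T1) (hY1 : Y1 = c * V0 + d * V1)
    (hY0 : Y0 = e' * V0 + e' * V1) :
    Mk Z W T0 T1 V0 V1 ((a.natAbs + b.natAbs) * (e'.natAbs + e'.natAbs))
      (Int.mul (a + b * Z) (e' + e' * W)) (X1 * Y0) ∧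
    Mk Z W T0 T1 V0 V1 ((e.natAbs + g.natAbs) * (c.natAbs + d.natAbs))
      (Int.mul (e + g * Z) (c + d * W)) (X0 * Y1) ∧
    Mk Z W T0 T1 V0 V1 ((e.natAbs + g.natAbs) * (e'.natAbs + e'.natAbs))
      (Int.mul (e + g * Z) (e' + e' * W)) (X0 * Y0) ∧
    Mk Z W T0 T1 V0 V1 ((a.natAbs + b.natAbs) * (c.natAbs + d.natAbs))
      (Int.mul (a + b * Z) (c + d * W)) (X1 * Y1) ∧
    Mk Z W T0 T1 V0 V1 ((a.natAbs + b.natAbs) * (e'.natAbs + e'.natAbs))
      (Int.mul (Int.neg (a + b * Z)) (e' + e' * W)) (-X1 * Y0) := by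
  subst hX1 hX0 hY1 hY0
  refine ⟨Mk.of a b e' e', Mk.of e g c d, Mk.of e g e' e', Mk.of a b c d, ?_⟩
  have h := Mk.of (Z := Z) (W := W) (T0 := T0) (T1 := T1) (V0 := V0) (V1 := V1) (-a) (-b) e' e'
  rw [Int.natAbs_neg, Int.natAbs_neg] at h
  have e1 : ((-a) + (-b) * Z) * (e' + e' * W) = Int.mul (Int.neg (a + b * Z)) (e' + e' * W) := by
    show _ = (-(a + b * Z)) * (e' + e' * W)
    ring
  have e2 : (((-a : ℤ) : ℝ) * T0 + ((-b : ℤ) : ℝ) * T1) * ((e' : ℝ) * V0 + e' * V1) =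
      -(a * T0 + b * T1) * (e' * V0 + e' * V1) := by push_cast; ring
  rw [e1, e2] at h
  exact h

/-- kind 0: a bounded rectangle `[a/e, b/e] x [c/e, d/e]` -/
lemma good0 {D : Dat} (hs : D.shape = true) {l : ℕ} {a b c d e : ℤ} (he : 0 < e) (hab : a < b)
    (hcd : c < d) (hb : bx D 0 l a b e e c d e = true) {x y : ℝ} (h1 : (a : ℝ) ≤ e * x)
    (h2 : e * x ≤ (b : ℝ)) (h3 : (c : ℝ) ≤ e * y) (h4 : e * y ≤ (d : ℝ)) : Good D x y := by
  have he' : (0 : ℝ) < e := by exact_mod_cast he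
  have hab' : (0 : ℝ) < b - a := by have : (a : ℝ) < b := by exact_mod_cast hab
                                    linarith
  have hcd' : (0 : ℝ) < d - c := by have : (c : ℝ) < d := by exact_mod_cast hcd
                                    linarith
  refine bx_sound hs hb (T0 := b - e * x) (T1 := e * x - a) (V0 := d - e * y) (V1 := e * y - c)
    (by linarith) (by linarith) (by linarith) (by linarith)
    (Cφ := (e * (b - a)) * (e * (d - c))) (by positivity) (fun Z W => ?_)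
  obtain ⟨p1, p2, p3, _, _⟩ := mk_frm (Z := Z) (W := W) (T0 := b - e * x) (T1 := e * x - a)
    (V0 := d - e * y) (V1 := e * y - c) a b e e c d e (X1 := (b - a) * (e * x))
    (X0 := e * (b - a)) (Y1 := (d - c) * (e * y)) (Y0 := e * (d - c)) (by ring) (by ring)
    (by ring) (by ring)
  refine ⟨?_, ?_, ?_⟩
  · rw [show (e * (b - a)) * (e * (d - c)) * x = ((b - a) * (e * x)) * (e * (d - c) : ℝ) by ring]
    exact p1
  · rw [show (e * (b - a)) * (e * (d - c)) * y = (e * (b - a)) * ((d - c) * (e * y) : ℝ) by ring]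
    exact p2
  · exact p3

/-- kind 1: `x ≥ 1`, `c x ≤ y ≤ d x`, `d - c = 1` -/
lemma good1 {D : Dat} (hs : D.shape = true) {l : ℕ} {c d : ℤ} (hcd : d = c + 1)
    (hb : bx D 1 l 1 1 1 0 c d 1 = true) {x y : ℝ} (h1 : 1 ≤ x)
    (h3 : (c : ℝ) * x ≤ y) (h4 : y ≤ (d : ℝ) * x) : Good D x y := by
  have hd : (d : ℝ) = c + 1 := by exact_mod_cast hcd
  refine bx_sound hs hb (T0 := 1) (T1 := x - 1) (V0 := d * x - y) (V1 := y - c * x)
    (by linarith) (by linarith) (by linarith) (by linarith)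
    (Cφ := x) (by linarith) (fun Z W => ?_)
  obtain ⟨p1, _, p3, p4, _⟩ := mk_frm (Z := Z) (W := W) (T0 := 1) (T1 := x - 1)
    (V0 := d * x - y) (V1 := y - c * x) 1 1 1 0 c d 1 (X1 := x)
    (X0 := 1) (Y1 := y) (Y0 := x) (by push_cast; ring) (by push_cast; ring)
    (by rw [hd]; ring) (by rw [hd]; push_cast; ring)
  refine ⟨p1, p4, ?_⟩
  rw [show (1 : ℝ) * x = x from one_mul x] at p3
  exact p3

/-- kind 2: `y ≥ 1`, `c y ≤ x ≤ d y`, `d - c = 1` -/
lemma good2 {D : Dat} (hs : D.shape = true) {l : ℕ} {c d : ℤ} (hcd : d = c + 1)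
    (hb : bx D 2 l 1 1 1 0 c d 1 = true) {x y : ℝ} (h1 : 1 ≤ y)
    (h3 : (c : ℝ) * y ≤ x) (h4 : x ≤ (d : ℝ) * y) : Good D x y := by
  have hd : (d : ℝ) = c + 1 := by exact_mod_cast hcd
  refine bx_sound hs hb (T0 := 1) (T1 := y - 1) (V0 := d * y - x) (V1 := x - c * y)
    (by linarith) (by linarith) (by linarith) (by linarith)
    (Cφ := y) (by linarith) (fun Z W => ?_)
  obtain ⟨p1, _, p3, p4, _⟩ := mk_frm (Z := Z) (W := W) (T0 := 1) (T1 := y - 1)
    (V0 := d * y - x) (V1 := x - c * y) 1 1 1 0 c d 1 (X1 := y)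
    (X0 := 1) (Y1 := x) (Y0 := y) (by push_cast; ring) (by push_cast; ring)
    (by rw [hd]; ring) (by rw [hd]; push_cast; ring)
  refine ⟨p4, p1, ?_⟩
  rw [show (1 : ℝ) * y = y from one_mul y] at p3
  exact p3

/-- kind 3: `x ≤ -1`, `0 ≤ y ≤ -x` -/
lemma good3 {D : Dat} (hs : D.shape = true) {l : ℕ}
    (hb : bx D 3 l 1 1 1 0 0 1 1 = true) {x y : ℝ} (h1 : x ≤ -1)
    (h3 : 0 ≤ y) (h4 : y ≤ -x) : Good D x y := by
  refine bx_sound hs hb (T0 := 1) (T1 := -x - 1) (V0 := -x - y) (V1 := y)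
    (by linarith) (by linarith) (by linarith) (by linarith)
    (Cφ := -x) (by linarith) (fun Z W => ?_)
  obtain ⟨_, _, p3, p4, p5⟩ := mk_frm (Z := Z) (W := W) (T0 := 1) (T1 := -x - 1)
    (V0 := -x - y) (V1 := y) 1 1 1 0 0 1 1 (X1 := -x)
    (X0 := 1) (Y1 := y) (Y0 := -x) (by push_cast; ring) (by push_cast; ring)
    (by push_cast; ring) (by push_cast; ring)
  refine ⟨?_, p4, ?_⟩
  · rw [show -x * x = -(-x) * (-x) by ring]
    exact p5
  · rw [show (1 : ℝ) * -x = -x from one_mul (-x)] at p3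
    exact p3

/-- trees of boxes; a leaf carries `16 λ` -/
inductive Tree where
  | leaf (l : ℕ) : Tree
  | sx (m : ℤ) (t u : Tree) : Tree
  | sy (m : ℤ) (t u : Tree) : Tree

def ilt (a b : ℤ) : Bool := decide (a < b)

def chk (D : Dat) (e : ℤ) : Tree → ℤ → ℤ → ℤ → ℤ → Bool
  | .leaf l, a, b, c, d => ilt a b && (ilt c d && bx D 0 l a b e e c d e)
  | .sx m t u, a, b, c, d => chk D e t a m c d && chk D e u m b c d
  | .sy m t u, a, b, c, d => chk D e t a b c m && chk D e u a b m d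

lemma chk_sound {D : Dat} (hs : D.shape = true) {e : ℤ} (he : 0 < e) (t : Tree) (a b c d : ℤ)
    (h : chk D e t a b c d = true) {x y : ℝ} (h1 : (a : ℝ) ≤ e * x)
    (h2 : e * x ≤ (b : ℝ)) (h3 : (c : ℝ) ≤ e * y) (h4 : e * y ≤ (d : ℝ)) : Good D x y := by
  induction t generalizing a b c d with
  | leaf l =>
    simp only [chk, Bool.and_eq_true, ilt, decide_eq_true_eq] at h
    exact good0 hs he h.1 h.2.1 h.2.2 h1 h2 h3 h4
  | sx m t u iht ihu =>
    simp only [chk, Bool.and_eq_true] at h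
    rcases le_total (e * x) (m : ℝ) with h5 | h5
    · exact iht a m c d h.1 h1 h5 h3 h4
    · exact ihu m b c d h.2 h5 h2 h3 h4
  | sy m t u iht ihu =>
    simp only [chk, Bool.and_eq_true] at h
    rcases le_total (e * y) (m : ℝ) with h5 | h5
    · exact iht a b c m h.1 h1 h2 h3 h5
    · exact ihu a b m d h.2 h1 h2 h5 h4

/-- the cover of the half plane -/
lemma cover {D : Dat} (hs : D.shape = true) (t : Tree) (l1 l2 l2' l3 : ℕ)
    (h0 : chk D 32 t (-32) 32 0 32 = true)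
    (h1 : bx D 1 l1 1 1 1 0 0 1 1 = true)
    (h2 : bx D 2 l2 1 1 1 0 (-1) 0 1 = true)
    (h2' : bx D 2 l2' 1 1 1 0 0 1 1 = true)
    (h3 : bx D 3 l3 1 1 1 0 0 1 1 = true) (x y : ℝ) (hy : 0 ≤ y) : Good D x y := by
  rcases le_total y 1 with hy1 | hy1
  · rcases le_total x 1 with hx1 | hx1
    · rcases le_total (-1) x with hx2 | hx2
      · exact chk_sound hs (by norm_num) t _ _ _ _ h0 (by push_cast; linarith)
          (by push_cast; linarith) (by push_cast; linarith) (by push_cast; linarith)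
      · exact good3 hs h3 hx2 hy (by linarith)
    · exact good1 hs (by norm_num) h1 hx1 (by push_cast; linarith) (by push_cast; linarith)
  · rcases le_total x y with hxy | hxy
    · rcases le_total (-y) x with hxy' | hxy'
      · rcases le_total 0 x with hx0 | hx0
        · exact good2 hs (by norm_num) h2' hy1 (by push_cast; linarith) (by push_cast; linarith)
        · exact good2 hs (by norm_num) h2 hy1 (by push_cast; linarith) (by push_cast; linarith)
      · exact good3 hs h3 (by linarith) hy (by linarith)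
    · exact good1 hs (by norm_num) h1 (by linarith) (by push_cast; linarith)
        (by push_cast; linarith)

end Pool.EK71
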